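import Mathlib
import Pool.Agent.U974.BS.Com

/-!
# The 2-part of the leading-term formula: all graphs, for a positive proportion of all tuples of shifts

`E_D : y² + x y = x³ - (3 D + 1) / 4 x² - 2 D² x - D³` is the quadratic twist by `D` of `X_0(49)`, for the
squarefree `D ≥ 1` with all prime factors `1` modulo `4` (`Family`). Every member is of exactly one of two kinds:
`TwoPart D` (`L(E_D, 1) ≠ 0`, `E_D(ℚ)` finite, `Ш(E_D/ℚ)[2^∞] = 0`, and the analytic order of `Ш` is a unit at the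
primes above two: the 2-part of the formula) or `Other D` (the analytic order of `Ш` is integral and not a unit
above two, and `E_D(ℚ)` is infinite or `Ш(E_D/ℚ)[2] ≠ 0`).

Let `𝒟` be ANY finite set of members, of any kinds and with any common prime factors, and `V` ANY subset. There
is a member `M`, prime to `𝒟`, with at most `ρ + 5 · 4 ^ ρ |𝒟 \ V| + 2` primes (`ρ` the number of the primes of
`𝒟`), all of them larger than a given bound, and `M = 1` if `V` is the set of the `D ∈ 𝒟` with `TwoPart D`, such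
that for all `m` and `N` prime to `7` there are a prime `r` and a bound `B` with the following property. In
EVERY set `W` of at least `δ x` integers of `[0, x]` at least the proportion `c(δ) > 0` of all the `x ^ m` vectors
`h_1 < ... < h_m` have their entries in `W` and satisfy: for EVERY graph `G` with the vertices `1, ..., m` there
are `{d₀, d₁} = {1, r}` such that for infinitely many `n` the numbers `n + h_i` are primes, `1` modulo `28 N`, at
most `B` primes lie at distance at most `Y` from `n` (for every `Y`), and, for all `D ∈ 𝒟` and ALL nonempty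
subsets `S` of `{1, ..., m}`, with `P = ∏_{i ∈ S} (n + h_i)`:

* `D M d₀ P` is of the first kind (`TwoPart`) if `D ∈ V` and the number of the rooted spanning forests of the
  induced subgraph `G[S]` is odd, and of the other kind otherwise;
* `D M d₁ P` is of the other kind.

For the graph without edges, `𝒟 = V = {1}`: for a positive proportion of all the `m`-tuples of shifts the 2-part
of the formula holds for all the `2 ^ m - 1` twists by `d₀ ∏_S (n + h_i)`.

Proof. `Pool/Agent/U974/PP`: for a random tuple of `K` shifts, `K` large, every difference has a private large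
prime factor to the first power; modulo these primes the class of `n` is chosen such that the symbols between the
primes which the theorem of Maynard and Tao finds are those of a Paley graph modulo a prime `Q`, whatever the
primes are. A positive proportion of the points of the Paley graph occurs, with one value of the quartic symbol of
`-7` (which is not a congruence condition), so every pattern of symbols. By Ramsey's theorem one `m`-subtuple
serves all patterns, and a positive proportion of all `m`-tuples is obtained by averaging. The inert prime `r` is a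
nonresidue modulo the new primes and exchanges the two values of the quartic symbol; the linear system of the
2-descent splits into that of `D M` and that of the graph (`U974/TW/Fld1`). The criterion for one `D` is the
starting theorem `MP_4a9ea6_nt.TwoPartTwistsX49`; the number `M` is helper239's (`U239/CT`).
-/

set_option autoImplicit false

open scoped Classical

namespace Pool.Agent.Results.MP_92892c_nt.GraphsForTupleProportion

open Filter Matrix WeierstrassCurve Topology
open Pool.Agent.TH841.NF.D (Sha)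
open Pool.Agent.Results.MP_4a9ea6_nt.TwoPartTwistsX49 (E anOrder TwoPart)

/-- the class: `D` is squarefree and all its prime factors are `1` modulo `4` -/
def Family (D : ℕ) : Prop := Squarefree D ∧ ∀ p ∈ D.primeFactors, p % 4 = 1

/-- The other kind: `E_D(ℚ)` is infinite or `Ш(E_D/ℚ)` has an element of order two; `L(E_D, s)` has the
entire continuation `Λ`, and the analytic order of `Ш` is integral and not a unit at two:
`v (anOrder D (Λ 1)) < 1` for all valuations `v` of `ℂ` above two. -/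
def Other (D : ℕ) : Prop :=
  ¬ (Finite (E D).toAffine.Point ∧ ∀ x : Sha (E D), 2 • x = 0 → x = 0) ∧
  ∃ Λ : ℂ → ℂ, Differentiable ℂ Λ ∧ (∀ s : ℂ, 2 < s.re → Λ s = (E D).LSeries s) ∧
    ∀ (Γ : Type) [LinearOrderedCommGroupWithZero Γ] (v : Valuation ℂ Γ), v 2 < 1 →
      v (anOrder D (Λ 1)) < 1

/-- `D` is a member, of the first kind if `P` holds, and of the other kind if it does not -/
def Kind (D : ℕ) (P : Prop) : Prop := Family D ∧ (P → TwoPart D) ∧ (¬ P → Other D)

/-- the primes which divide a member of `𝒟` -/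
def primes (𝒟 : Finset ℕ) : Finset ℕ := 𝒟.biUnion Nat.primeFactors

/-- the determinant of the matrix `1 + Laplacian` of the subgraph of `G` induced on `S` is odd -/
def OddForests {m : ℕ} (G : SimpleGraph (Fin m)) (S : Finset (Fin m)) : Prop :=
  ((1 : Matrix (S : Set (Fin m)) (S : Set (Fin m)) (ZMod 2)) +
    (G.induce (S : Set (Fin m))).lapMatrix (ZMod 2)).det ≠ 0

/-- for every graph `G` there are `{d₀, d₁} = {1, r}` such that for infinitely many `n` the `n + h i` are primes,
`1` modulo `28 N`, with at most `B` primes at distance at most `Y` from `n`, and the kinds of the numbers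
`D M d₀ ∏_{i ∈ S} (n + h i)` and `D M d₁ ∏_{i ∈ S} (n + h i)` are those given by `V` and by the graph -/
def AllGraphs (𝒟 V : Finset ℕ) (M N r B : ℕ) {m : ℕ} (h : Fin m → ℕ) : Prop :=
  ∀ G : SimpleGraph (Fin m), ∃ d₀ d₁ : ℕ, (d₀ = 1 ∧ d₁ = r ∨ d₀ = r ∧ d₁ = 1) ∧ ∀ Y : ℕ,
    {n : ℕ | (∀ i, (n + h i).Prime ∧ n + h i ≡ 1 [MOD 28 * N]) ∧
      {p : ℕ | p.Prime ∧ |(p : ℤ) - n| ≤ Y}.ncard ≤ B ∧
      ∀ S : Finset (Fin m), S.Nonempty → ∀ D ∈ 𝒟,
        Kind (D * M * (d₀ * ∏ i ∈ S, (n + h i))) (D ∈ V ∧ OddForests G S) ∧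
        Kind (D * M * (d₁ * ∏ i ∈ S, (n + h i))) False}.Infinite

section proof

open Pool.Agent.Results.MP_4a9ea6_nt.TwoPartTwistsX49 (core two_iff mat)
open Pool.Agent.U239.CT
open Pool.Agent.U974.TW
open Pool.Agent.U974.BS

theorem other_iff {D : ℕ} (h : Family D) : Other D ↔ ¬ TwoPart D := by
  have h0 : TwoPart D ↔ (mat D).det ≠ 0 := two_iff h
  rw [h0]
  obtain ⟨-, -, -, h4, -, -, Λ, h7, h8, -, h10, -⟩ := core h
  have h4' : (Finite (E D).toAffine.Point ∧ ∀ x : Sha (E D), 2 • x = 0 → x = 0) ↔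
      (mat D).det ≠ 0 := by
    have h5 : (Finite (E D).toAffine.Point ∧ ∀ x : Sha (E D), 2 • x = 0 → x = 0) ↔
        (Finite (E D).toAffine.Point ∧ ∀ x : Sha (E D), x + x = 0 → x = 0) := by
      simp only [two_nsmul]
    exact h5.trans h4
  constructor
  · rintro ⟨h1, -⟩ h2
    exact h1 (h4'.2 h2)
  · intro h1
    refine ⟨fun h2 => h1 (h4'.1 h2), Λ, h7, h8, fun Γ _ v hv => ?_⟩
    obtain ⟨h11, h12⟩ := h10 Γ v hv
    exact lt_of_le_of_ne h11 fun h13 => h1 (h12.1 h13)

theorem kind_of {D : ℕ} {P : Prop} (h : Family D) (hP : TwoPart D ↔ P) : Kind D P :=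
  ⟨h, hP.2, fun h1 => (other_iff h).2 fun h2 => h1 (hP.1 h2)⟩

theorem kind_iff {D : ℕ} {P : Prop} (h : Kind D P) : TwoPart D ↔ P :=
  ⟨fun h1 => by_contra fun h2 => (other_iff h.1).1 (h.2.2 h2) h1, h.2.1⟩

/-- the number `M` -/
theorem exists_M (𝒟 V : Finset ℕ) (h𝒟 : ∀ D ∈ 𝒟, Family D) (b : ℕ) :
    ∃ M : ℕ, Family M ∧ M.primeFactors.card ≤ (primes 𝒟).card + 5 * 4 ^ (primes 𝒟).card * (𝒟 \ V).card + 2 ∧
      (∀ q ∈ M.primeFactors, b < q ∧ q ∉ primes 𝒟) ∧ ((∀ D ∈ 𝒟, D ∈ V ↔ TwoPart D) → M = 1) ∧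
      ∀ D ∈ 𝒟, Kind (D * M) (D ∈ V) := by
  by_cases hV : ∀ D ∈ 𝒟, D ∈ V ↔ TwoPart D
  · refine ⟨1, ⟨squarefree_one, by simp⟩, by simp, by simp, fun _ => rfl, fun D hD => ?_⟩
    rw [mul_one]
    exact kind_of (h𝒟 D hD) (hV D hD).symm
  · have hR : ∀ r ∈ primes 𝒟, r.Prime ∧ r % 4 = 1 := by
      intro r hr
      obtain ⟨D, hD, hr⟩ := Finset.mem_biUnion.1 hr
      exact ⟨Nat.prime_of_mem_primeFactors hr, (h𝒟 D hD).2 r hr⟩
    have hsub : ∀ D ∈ 𝒟, D.primeFactors ⊆ primes 𝒟 := fun D hD r hr =>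
      Finset.mem_biUnion.2 ⟨D, hD, hr⟩
    obtain ⟨M, h1, h0, h2, h3⟩ := exists_common (primes 𝒟) hR
      ((𝒟 \ V).image Nat.primeFactors) (by
        intro A hA
        obtain ⟨D, hD, rfl⟩ := Finset.mem_image.1 hA
        exact hsub D (Finset.mem_sdiff.1 hD).1) b
    have hc1 : (spl (primes 𝒟)).card ≤ (primes 𝒟).card := Finset.card_filter_le _ _
    have hc2 : ((𝒟 \ V).image Nat.primeFactors).card ≤ (𝒟 \ V).card := Finset.card_image_le
    refine ⟨M, h1, ?_, fun q hq => ⟨(h2 q hq).1, (h2 q hq).2.1⟩, fun h => absurd h hV, fun D hD => ?_⟩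
    · refine h0.trans ?_
      have hc3 := Nat.mul_le_mul_right (5 * 4 ^ (primes 𝒟).card) hc2
      rw [Nat.mul_comm (𝒟 \ V).card] at hc3
      omega
    · obtain ⟨h4, h5⟩ := h3 D (h𝒟 D hD) (hsub D hD)
      have h6 : D.primeFactors ∉ (𝒟 \ V).image Nat.primeFactors ↔ D ∈ V := by
        rw [← not_iff_not, not_not, Finset.mem_image]
        constructor
        · rintro ⟨D', hD', h4⟩
          have hD' := Finset.mem_sdiff.1 hD'
          have h5 := Nat.prod_primeFactors_of_squarefree (h𝒟 D' hD'.1).1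
          have h6 := Nat.prod_primeFactors_of_squarefree (h𝒟 D hD).1
          rw [h4, h6] at h5
          rw [h5]
          exact hD'.2
        · intro h4
          exact ⟨D, Finset.mem_sdiff.2 ⟨hD, h4⟩, rfl⟩
      refine kind_of h4 ?_
      rw [← h6, ← h5]
      exact two_iff h4

end proof

/-- **All graphs, for a positive proportion of all tuples of shifts.** -/
theorem result (𝒟 V : Finset ℕ) (h𝒟 : ∀ D ∈ 𝒟, Family D) (b : ℕ) :
    ∃ M : ℕ, Family M ∧
      M.primeFactors.card ≤ (primes 𝒟).card + 5 * 4 ^ (primes 𝒟).card * (𝒟 \ V).card + 2 ∧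
      (∀ q ∈ M.primeFactors, b < q ∧ q ∉ primes 𝒟) ∧ ((∀ D ∈ 𝒟, D ∈ V ↔ TwoPart D) → M = 1) ∧
      (∀ D ∈ 𝒟, Kind (D * M) (D ∈ V)) ∧
      ∀ m N : ℕ, 0 < N → N.Coprime 7 →
        ∃ r B : ℕ, r.Prime ∧ r ≡ 1 [MOD 4 * N] ∧ r % 7 = 3 ∧ ∀ δ : ℝ, 0 < δ → ∃ c : ℝ, 0 < c ∧
          ∃ x₀ : ℕ, ∀ x : ℕ, x₀ ≤ x → ∀ W : Finset ℕ, (∀ w ∈ W, w ≤ x) → δ * x ≤ W.card →
            c * (x : ℝ) ^ m ≤ ({h : Fin m → ℕ | StrictMono h ∧ (∀ i, h i ∈ W) ∧
              AllGraphs 𝒟 V M N r B h}.ncard : ℝ) := by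
  obtain ⟨M, hM1, hM2, hM3, hM4, hM5⟩ := exists_M 𝒟 V h𝒟 b
  refine ⟨M, hM1, hM2, hM3, hM4, hM5, fun m N hN h7 => ?_⟩
  have hT : ∀ q ∈ (primes 𝒟 ∪ M.primeFactors), q.Prime ∧ q % 4 = 1 := by
    intro q hq
    rcases Finset.mem_union.1 hq with hq | hq
    · obtain ⟨D, hD, hq⟩ := Finset.mem_biUnion.1 hq
      exact ⟨Nat.prime_of_mem_primeFactors hq, (h𝒟 D hD).2 q hq⟩
    · exact ⟨Nat.prime_of_mem_primeFactors hq, hM1.2 q hq⟩
  obtain ⟨r, hr1, hr2, hr3, B, hB⟩ := Pool.Agent.U974.TW.relP m N hN h7 (primes 𝒟 ∪ M.primeFactors) hT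
  refine ⟨r, B, hr1, hr2, hr3, fun δ hδ => ?_⟩
  obtain ⟨c, hc, x₀, hx⟩ := hB δ hδ
  refine ⟨c, hc, x₀, fun x hxx W hW hWc => (hx x hxx W hW hWc).trans ?_⟩
  have hfin : {h : Fin m → ℕ | StrictMono h ∧ (∀ i, h i ∈ W) ∧ AllGraphs 𝒟 V M N r B h}.Finite := by
    refine (Fintype.piFinset (fun _ : Fin m => W)).finite_toSet.subset ?_
    rintro h ⟨-, h2, -⟩
    rw [Finset.mem_coe, Fintype.mem_piFinset]
    exact h2
  have hsub : {h : Fin m → ℕ | StrictMono h ∧ (∀ i, h i ∈ W) ∧
      Pool.Agent.U974.TW.AllCfg N B (primes 𝒟 ∪ M.primeFactors) r h} ⊆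
      {h : Fin m → ℕ | StrictMono h ∧ (∀ i, h i ∈ W) ∧ AllGraphs 𝒟 V M N r B h} := by
    rintro h ⟨g1, g2, g3⟩
    refine ⟨g1, g2, fun G => ?_⟩
    obtain ⟨c, hc⟩ := g3 G
    obtain ⟨β, hβ1, hβ2⟩ := Pool.Agent.U974.TW.exists_flip c
    refine ⟨if β then r else 1, if (!β) then r else 1, ?_, fun Y => (hc Y).mono ?_⟩
    · cases β
      · exact Or.inl ⟨rfl, rfl⟩
      · exact Or.inr ⟨rfl, rfl⟩
    · rintro n ⟨k1, k2, k3⟩
      refine ⟨fun i => ⟨k1.prime i, k2 i⟩, k3, fun S hS D hD => ?_⟩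
      have hDM := hM5 D hD
      have hsub2 : (D * M).primeFactors ⊆ primes 𝒟 ∪ M.primeFactors := by
        intro q hq
        have h1 := Nat.mem_primeFactors.1 hq
        rcases (Nat.Prime.dvd_mul h1.1).1 h1.2.1 with h2 | h2
        · exact Finset.mem_union_left _ (Finset.mem_biUnion.2 ⟨D, hD, Nat.mem_primeFactors.2
            ⟨h1.1, h2, (h𝒟 D hD).1.ne_zero⟩⟩)
        · exact Finset.mem_union_right _ (Nat.mem_primeFactors.2 ⟨h1.1, h2, hM1.1.ne_zero⟩)
      constructor
      · obtain ⟨e1, e2⟩ := Pool.Agent.U974.BS.kind k1 hDM.1 hsub2 β S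
        refine kind_of e1 ?_
        rw [hβ1, Pool.Agent.U974.TW.ker_iff, kind_iff hDM] at e2
        exact e2
      · obtain ⟨e1, e2⟩ := Pool.Agent.U974.BS.kind k1 hDM.1 hsub2 (!β) S
        refine kind_of e1 ?_
        rw [hβ2] at e2
        rw [e2]
        constructor
        · intro e3
          exact Pool.Agent.U974.TW.ker_zero G hS e3.2
        · exact fun e3 => e3.elim
  exact_mod_cast Set.ncard_le_ncard hsub hfin

end Pool.Agent.Results.MP_92892c_nt.GraphsForTupleProportion
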