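import Pool.Agent.U687.PL.App

/-!
# The 2-part of the leading-term formula for all the twists by divisors: every pattern has an exact proportion
# among the numbers with `K` prime factors, ordered by size, and a positive one if it occurs at all

`E_D : y² + x y = x³ - (3 D + 1) / 4 x² - 2 D² x - D³` is the quadratic twist by `D` of `X_0(49)`, for the
squarefree `D ≥ 1` with all prime factors `1` modulo `4` (`Family`). Every member is of exactly one of two kinds:
`TwoPart D` (`L(E_D, 1) ≠ 0`, `E_D(ℚ)` finite, `Ш(E_D/ℚ)[2^∞] = 0`, and the analytic order of `Ш` is a unit at the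
primes above two: the 2-part of the formula) or `Other D` (the analytic order of `Ш` is integral and not a unit
above two, and `E_D(ℚ)` is infinite or `Ш(E_D/ℚ)[2] ≠ 0`).

Let `G` be ANY finite set of members, of any kinds and with any common prime factors, `K ≥ 1`, and let `m` run,
in the natural order, through ALL the squarefree numbers with exactly `K` prime factors, all `1` modulo `4` and
none of them a divisor of a member of `G`. To `m` belongs the family of the kinds of the `2 ^ K · #G` twists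
`D d`, `D ∈ G`, `d ∣ m`. Put `N = K (w + 2) + (K choose 2)`, `w` the number of the primes that divide members of
`G`.

* For ANY property `R` of this family (not depending on the numbering of the prime factors of `m`) the proportion
  of the `m ≤ X` with `R` has a limit, this limit is `j / 2 ^ N` with a natural number `j`, and `j > 0` if and only
  if a SINGLE `m` has the property. So every pattern of kinds that occurs once occurs for a positive proportion,
  at least `2 ^ (-N)`, of all the `m`.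
* For EVERY subset `V` of `G` and EVERY `K ≥ w + 5 · 4 ^ w · #(G \ V) + 2` the limit of the proportion of the `m`
  such that, for `D ∈ G`, the 2-part of the formula holds for `D m` exactly if `D ∈ V`, is positive.
* For every `K ≥ 1` the limit of the proportion of the `m` such that for all `D ∈ G` and ALL the divisors `d` of `m`
  the twist `D d` is of the same kind as `D` is positive.

Method. For a tuple of primes with bounded product the indicator of a complete assignment of the quadratic symbols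
(between the primes, and with the primes of `G`), of the quartic symbols of `-7` and of the types is a product of
functions of one prime and of functions of pairs of primes; it has a mean by the means over the primes and a
bilinear estimate for the Jacobi symbol over the hyperbola `p q ≤ Z` (`U687/NO/Cyl`, `U687/PL`). The kinds of the
twists are functions of the assignment by the starting criterion `MP_4a9ea6_nt.TwoPartTwistsX49`. The existence in
the second point is helper239's and helper33's (`U239/CT`, `U974/BS`), in the third one helper80's (`U80/MQ`).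
-/

set_option autoImplicit false

open scoped Classical

namespace Pool.Agent.Results.MP_92892c_nt.PatternsOfDivisorTwists

open Filter Topology
open Pool.Agent.TH841.NF.D (Sha)
open Pool.Agent.Results.MP_4a9ea6_nt.TwoPartTwistsX49 (E anOrder TwoPart)

/-- the class: `D` is squarefree and all its prime factors are `1` modulo `4` -/
def Family (D : ℕ) : Prop := Squarefree D ∧ ∀ p ∈ D.primeFactors, p % 4 = 1

/-- The other kind: `E_D(ℚ)` is infinite or `Ш(E_D/ℚ)` has an element of order two; `L(E_D, s)` has the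
entire continuation `Λ`, and the analytic order of `Ш` is integral and not a unit at two:
`v (anOrder D (Λ 1)) < 1` for all valuations `v` of `ℂ` above two. -/
def Other (D : ℕ) : Prop :=
  ¬ (Finite (E D).toAffine.Point ∧ ∀ x : Sha (E D), 2 • x = 0 → x = 0) ∧
  ∃ Λ : ℂ → ℂ, Differentiable ℂ Λ ∧ (∀ s : ℂ, 2 < s.re → Λ s = (E D).LSeries s) ∧
    ∀ (Γ : Type) [LinearOrderedCommGroupWithZero Γ] (v : Valuation ℂ Γ), v 2 < 1 →
      v (anOrder D (Λ 1)) < 1

/-- the primes which divide members of `G` -/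
def primes (G : Finset ℕ) : Finset ℕ := G.biUnion Nat.primeFactors

/-- the numbers by which the members of `G` are twisted -/
def Multiplier (K : ℕ) (G : Finset ℕ) (m : ℕ) : Prop :=
  Squarefree m ∧ m.primeFactors.card = K ∧ ∀ p ∈ m.primeFactors, p % 4 = 1 ∧ p ∉ primes G

/-- those up to `X` -/
noncomputable def multipliers (K : ℕ) (G : Finset ℕ) (X : ℕ) : Finset ℕ :=
  (Finset.Icc 1 X).filter fun m => Multiplier K G m

/-- the share of those with the property `Q` -/
noncomputable def proportion (K : ℕ) (G : Finset ℕ) (Q : ℕ → Prop) (X : ℕ) : ℝ :=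
  (((multipliers K G X).filter Q).card : ℝ) / ((multipliers K G X).card : ℝ)

/-- the family of the kinds of the twists `D ∏_{i ∈ S} p_i` (`True` for the kind `TwoPart`) -/
def kinds {K : ℕ} (G : Finset ℕ) (p : Fin K → ℕ) : G → Finset (Fin K) → Prop :=
  fun D S => TwoPart (D * ∏ i ∈ S, p i)

/-- for some numbering `p` of the prime factors of `m` the family of the kinds has the property `R` -/
def Has (K : ℕ) (G : Finset ℕ) (R : (G → Finset (Fin K) → Prop) → Prop) (m : ℕ) : Prop :=
  ∃ p : Fin K → ℕ, Function.Injective p ∧ (∀ i, (p i).Prime) ∧ ∏ i, p i = m ∧ R (kinds G p)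

/-- the exponent of the denominator -/
def exponent (K : ℕ) (G : Finset ℕ) : ℕ := K * ((primes G).card + 2) + K.choose 2

section proof

open Pool.Agent.U687.PL Pool.Agent.U687.NO
open Pool.Agent.Results.MP_4a9ea6_nt.TwoPartTwistsX49 (core two_iff mat Adm)

theorem other_iff {D : ℕ} (h : Family D) : Other D ↔ ¬ TwoPart D := by
  have h0 : TwoPart D ↔ (mat D).det ≠ 0 := two_iff h
  rw [h0]
  obtain ⟨-, -, -, h4, -, -, Λ, h7, h8, -, h10, -⟩ := core h
  have h4' : (Finite (E D).toAffine.Point ∧ ∀ x : Sha (E D), 2 • x = 0 → x = 0) ↔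
      (mat D).det ≠ 0 := by
    simp only [two_nsmul]
    exact h4
  constructor
  · rintro ⟨h1, -⟩ h2
    exact h1 (h4'.2 h2)
  · intro h1
    refine ⟨fun h2 => h1 (h4'.1 h2), Λ, h7, h8, fun Γ _ v hv => ?_⟩
    obtain ⟨h11, h12⟩ := h10 Γ v hv
    exact lt_of_le_of_ne h11 fun h13 => h1 (h12.1 h13)

theorem mult_iff {K m : ℕ} {G : Finset ℕ} : Multiplier K G m ↔ InM K (dG G) m := by
  unfold Multiplier InM
  have e : ∀ p : ℕ, p ∈ primes G ↔ p ∈ pG G := fun p => Iff.rfl
  constructor
  · rintro ⟨h1, h2, h3⟩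
    refine ⟨h1, h2, fun p hp => (h3 p hp).1, Nat.Coprime.symm (Nat.Coprime.prod_left fun p hp => ?_)⟩
    refine ((pG_prime hp).coprime_iff_not_dvd).2 fun h => ?_
    exact (h3 p (Nat.mem_primeFactors.2 ⟨pG_prime hp, h, h1.ne_zero⟩)).2 hp
  · rintro ⟨h1, h2, h3, h4⟩
    refine ⟨h1, h2, fun p hp => ⟨h3 p hp, fun h => ?_⟩⟩
    have h5 : p ∣ dG G := Finset.dvd_prod_of_mem _ h
    have h6 := Nat.dvd_gcd (Nat.dvd_of_mem_primeFactors hp) h5
    rw [h4] at h6
    exact (Nat.prime_of_mem_primeFactors hp).one_lt.ne' (Nat.dvd_one.1 h6)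

theorem mults_eq (K : ℕ) (G : Finset ℕ) (X : ℕ) : multipliers K G X = Ms K (dG G) X := by
  ext m
  have h1 : m ∈ multipliers K G X ↔ m ∈ Finset.Icc 1 X ∧ Multiplier K G m := Finset.mem_filter
  rw [h1, mem_Ms, Finset.mem_Icc, mult_iff]
  exact Iff.rfl

theorem prop_eq (K : ℕ) (G : Finset ℕ) (Q : ℕ → Prop) (X : ℕ) : proportion K G Q X =
    (∑ m ∈ Ms K (dG G) X, (if Q m then (1 : ℝ) else 0)) / ((Ms K (dG G) X).card : ℝ) := by
  unfold proportion
  rw [mults_eq, card_as_sum ((Ms K (dG G) X).filter Q), Finset.sum_filter]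

theorem ep_card (K : ℕ) : (Ep K).card = K.choose 2 := by
  have h := card_lt (K := K) Finset.univ
  rw [Finset.card_univ, Fintype.card_fin] at h
  rw [← h]
  unfold Ep
  congr 1
  ext z
  simp

theorem main (K : ℕ) (G : Finset ℕ) (hK : 1 ≤ K) (hG : ∀ D ∈ G, Family D) :
    (∀ᶠ X in atTop, (multipliers K G X).Nonempty) ∧
    ∀ R : (G → Finset (Fin K) → Prop) → Prop, ∃ j : ℕ,
      Tendsto (proportion K G (Has K G R)) atTop (𝓝 ((j : ℝ) / 2 ^ exponent K G)) ∧
      (0 < j ↔ ∃ m, Multiplier K G m ∧ Has K G R m) := by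
  obtain ⟨n, rfl⟩ : ∃ n, K = n + 1 := ⟨K - 1, by omega⟩
  have hW : ∀ r ∈ pG G, r.Prime ∧ (r % 4 = 1 ∨ r = 2) := fun r hr => by
    obtain ⟨D, hD, h⟩ := mem_pG.1 hr
    exact ⟨pG_prime hr, Or.inl ((hG D hD).2 r h)⟩
  have key : ∀ R : (G → Finset (Fin (n + 1)) → Prop) → Prop, _ := fun R =>
    inv_law n (dG_ne G) hW (Pool.Agent.U687.PL.Has (n + 1) G TwoPart R)
      (has_inv hG (fun D hD p hp => mem_pG.2 ⟨D, hD, hp⟩) (fun D hD => dvd_dG hG hD) TwoPart
        (fun D hD => two_iff hD) R)
  have hex : ex (n + 1) (pG G).card = exponent (n + 1) G := by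
    unfold ex exponent
    rw [ep_card]
    rfl
  refine ⟨?_, fun R => ?_⟩
  · filter_upwards [(key fun _ => True).1] with X hX
    rw [mults_eq]
    exact Finset.card_pos.1 hX
  · obtain ⟨j, h1, h2⟩ := (key R).2
    rw [hex] at h1
    refine ⟨j, h1.congr fun X => (prop_eq _ _ _ X).symm, ?_⟩
    rw [h2]
    exact exists_congr fun m => and_congr_left fun _ => mult_iff.symm

/-- every multiplier has a numbering of its prime factors -/
theorem num_of {K m : ℕ} {G : Finset ℕ} (h : Multiplier K G m) :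
    ∃ p : Fin K → ℕ, Function.Injective p ∧ (∀ i, (p i).Prime) ∧ ∏ i, p i = m := by
  obtain ⟨x, hx, hm⟩ := exists_tuple (mult_iff.1 h)
  exact ⟨x, hx.2, fun i => (hx.1 i).1, hm⟩

theorem prop_congr {K : ℕ} {G : Finset ℕ} {Q Q' : ℕ → Prop}
    (h : ∀ m, Multiplier K G m → (Q m ↔ Q' m)) (X : ℕ) : proportion K G Q X = proportion K G Q' X := by
  unfold proportion
  congr 3
  refine Finset.filter_congr fun m hm => h m (Finset.mem_filter.1 hm).2

theorem div_iff {K : ℕ} {p : Fin K → ℕ} (hp : Function.Injective p) (hpr : ∀ i, (p i).Prime) {d : ℕ} :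
    d ∣ ∏ i, p i ↔ ∃ S : Finset (Fin K), d = ∏ i ∈ S, p i := by
  constructor
  · intro hd
    have hsq : Squarefree (∏ i, p i) := by
      have h1 : ∏ i, p i = ∏ q ∈ Finset.univ.image p, q := by
        rw [Finset.prod_image fun a _ b _ hab => hp hab]
      rw [h1]
      refine sq_prod fun q hq => ?_
      obtain ⟨i, -, rfl⟩ := Finset.mem_image.1 hq
      exact hpr i
    have h2 := Nat.prod_primeFactors_of_squarefree (hsq.squarefree_of_dvd hd)
    refine ⟨Finset.univ.filter fun i => p i ∣ d, ?_⟩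
    have h3 : d.primeFactors = (Finset.univ.filter fun i => p i ∣ d).image p := by
      ext q
      rw [Nat.mem_primeFactors, Finset.mem_image]
      constructor
      · rintro ⟨g1, g2, -⟩
        obtain ⟨i, -, hi⟩ := (Prime.dvd_finsetProd_iff g1.prime _).1 (g2.trans hd)
        have g3 := (Nat.prime_dvd_prime_iff_eq g1 (hpr i)).1 hi
        exact ⟨i, Finset.mem_filter.2 ⟨Finset.mem_univ i, by rw [← g3]; exact g2⟩, g3.symm⟩
      · rintro ⟨i, hi, rfl⟩
        exact ⟨hpr i, (Finset.mem_filter.1 hi).2, ne_zero_of_dvd_ne_zero hsq.ne_zero hd⟩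
    calc d = ∏ q ∈ d.primeFactors, q := h2.symm
      _ = ∏ q ∈ (Finset.univ.filter fun i => p i ∣ d).image p, q := by rw [h3]
      _ = ∏ i ∈ Finset.univ.filter fun i => p i ∣ d, p i :=
          Finset.prod_image fun a _ b _ hab => hp hab
  · rintro ⟨S, rfl⟩
    exact Finset.prod_dvd_prod_of_subset _ _ _ (Finset.subset_univ S)

end proof

open Pool.Agent.U687.PL in
/-- **Theorem.** -/
theorem result :
    (∀ D : ℕ, Family D → (TwoPart D ∨ Other D) ∧ ¬ (TwoPart D ∧ Other D)) ∧
    (∀ (K : ℕ) (G : Finset ℕ), 1 ≤ K → (∀ D ∈ G, Family D) →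
      (∀ᶠ X in atTop, (multipliers K G X).Nonempty) ∧
      (∀ R : (G → Finset (Fin K) → Prop) → Prop, ∃ j : ℕ,
        Tendsto (proportion K G (Has K G R)) atTop (𝓝 ((j : ℝ) / 2 ^ exponent K G)) ∧
        (0 < j ↔ ∃ m, Multiplier K G m ∧ Has K G R m)) ∧
      (∀ V : Finset ℕ, (primes G).card + 5 * 4 ^ (primes G).card * (G \ V).card + 2 ≤ K →
        ∃ j : ℕ, 0 < j ∧ Tendsto (proportion K G fun m => ∀ D ∈ G, (TwoPart (D * m) ↔ D ∈ V)) atTop
          (𝓝 ((j : ℝ) / 2 ^ exponent K G))) ∧
      ∃ j : ℕ, 0 < j ∧ Tendsto (proportion K G fun m =>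
        ∀ D ∈ G, ∀ d, d ∣ m → (TwoPart (D * d) ↔ TwoPart D)) atTop
          (𝓝 ((j : ℝ) / 2 ^ exponent K G))) := by
  refine ⟨fun D hD => ?_, fun K G hK hG => ⟨(main K G hK hG).1, (main K G hK hG).2, fun V hV => ?_, ?_⟩⟩
  · rw [other_iff hD]
    exact ⟨em _, fun h => h.2 h.1⟩
  · obtain ⟨j, h1, h2⟩ := (main K G hK hG).2 fun f => ∀ D : G, (f D Finset.univ ↔ (D : ℕ) ∈ V)
    have h3 : ∀ m, Multiplier K G m → (Has K G (fun f => ∀ D : G, (f D Finset.univ ↔ (D : ℕ) ∈ V)) m ↔
        ∀ D ∈ G, (TwoPart (D * m) ↔ D ∈ V)) := by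
      intro m hm
      constructor
      · rintro ⟨p, -, -, hp, hR⟩ D hD
        have h4 : TwoPart (D * ∏ i, p i) ↔ D ∈ V := hR ⟨D, hD⟩
        rwa [hp] at h4
      · intro h4
        obtain ⟨p, hp1, hp2, hp3⟩ := num_of hm
        refine ⟨p, hp1, hp2, hp3, fun D => ?_⟩
        show TwoPart (D * ∏ i, p i) ↔ (D : ℕ) ∈ V
        rw [hp3]
        exact h4 D D.2
    refine ⟨j, h2.2 ?_, h1.congr fun X => prop_congr h3 X⟩
    obtain ⟨m, hm1, hm2⟩ := occurs G V hG K hV
    have hm := mult_iff.2 hm1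
    refine ⟨m, hm, (h3 m hm).2 fun D hD => ?_⟩
    rw [← hm2 D hD]
    refine Pool.Agent.Results.MP_4a9ea6_nt.TwoPartTwistsX49.two_iff (adm_mul_cop (hG D hD)
      ⟨hm1.1, hm1.2.2.1⟩ ?_)
    exact (Nat.Coprime.coprime_dvd_right (dvd_dG hG hD) hm1.2.2.2).symm
  · obtain ⟨j, h1, h2⟩ := (main K G hK hG).2 fun f => ∀ (D : G) (S : Finset (Fin K)),
      (f D S ↔ TwoPart (D : ℕ))
    have h3 : ∀ m, Multiplier K G m → (Has K G (fun f => ∀ (D : G) (S : Finset (Fin K)),
        (f D S ↔ TwoPart (D : ℕ))) m ↔ ∀ D ∈ G, ∀ d, d ∣ m → (TwoPart (D * d) ↔ TwoPart D)) := by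
      intro m hm
      constructor
      · rintro ⟨p, hp1, hp2, hp, hR⟩ D hD d hd
        rw [← hp] at hd
        obtain ⟨S, rfl⟩ := (div_iff hp1 hp2).1 hd
        exact hR ⟨D, hD⟩ S
      · intro h4
        obtain ⟨p, hp1, hp2, hp3⟩ := num_of hm
        refine ⟨p, hp1, hp2, hp3, fun D S => ?_⟩
        refine h4 D D.2 _ ?_
        rw [← hp3]
        exact (div_iff hp1 hp2).2 ⟨S, rfl⟩
    refine ⟨j, h2.2 ?_, h1.congr fun X => prop_congr h3 X⟩
    obtain ⟨q, q1, q2, q3, q4⟩ := extend (adm_dG hG) K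
    have hm : Multiplier K G q := mult_iff.2 ⟨q1.1, q2, q1.2, q3⟩
    refine ⟨q, hm, (h3 q hm).2 fun D hD d hd => ?_⟩
    have hc : Nat.Coprime D d :=
      (Nat.Coprime.coprime_dvd_right (dvd_dG hG hD) (Nat.Coprime.coprime_dvd_left hd q3)).symm
    have hd2 : Pool.Agent.Results.MP_4a9ea6_nt.TwoPartTwistsX49.Adm d :=
      ⟨q1.1.squarefree_of_dvd hd, fun p hp => q1.2 p (Nat.primeFactors_mono hd q1.1.ne_zero hp)⟩
    have e1 : TwoPart (D * d) ↔ _ :=
      Pool.Agent.Results.MP_4a9ea6_nt.TwoPartTwistsX49.two_iff (adm_mul_cop (hG D hD) hd2 hc)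
    have e2 : TwoPart D ↔ _ := Pool.Agent.Results.MP_4a9ea6_nt.TwoPartTwistsX49.two_iff (hG D hD)
    rw [e1, e2]
    exact q4 D (hG D hD) (dvd_dG hG hD) d hd

end Pool.Agent.Results.MP_92892c_nt.PatternsOfDivisorTwists
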