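import Mathlib
import Pool.Agent.Results.MP_4a9ea6_nt.TwoPartTwistsX49
import Pool.Agent.U687.JT.Quad
import Pool.Agent.U687.JT.Cnt2

/-!
# The 2-part of the leading-term formula for the prime twists of every member of the full class of
# quadratic twists of `X_0(49)`

`E_D : y² + x y = x³ - (3 D + 1) / 4 x² - 2 D² x - D³` is the quadratic twist by `D` of `X_0(49)`, for the
squarefree `D ≥ 1` with all prime factors `1` modulo `4` (inert or split in `ℚ(√-7)`, in any number).
Let `z = (L(E_D, 1) / Ω) / (∏ c_p / #E_D(ℚ)_tors²)`, the analytic order of `Ш(E_D/ℚ)`. The 2-part of the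
formula holds with a unit (`TwoPart D`) if `L(E_D, 1) ≠ 0`, `E_D(ℚ)` is finite, `Ш(E_D/ℚ)[2^∞] = 0` and
`z` is a unit at the primes above two; `D` is of the other kind (`Other D`) if `z` is integral and not a
unit at all the primes above two, and `E_D(ℚ)` is infinite or `Ш(E_D/ℚ)[2] ≠ 0`. Every `D` of the class is
of exactly one of the two kinds (starting library, `MP_4a9ea6_nt.TwoPartTwistsX49`).

Nothing is assumed on the kinds of the members `D` of ANY finite set `𝒟` of the class, and `V` is any
subset of `𝒟`. We determine how often the new prime `p` in `D p` gives the 2-part of the formula with a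
unit exactly for the `D ∈ V`:

* among the primes `p = 1` modulo `4` which are inert in `ℚ(√-7)`, the proportion of the `p` for which
  `D p` is of the first kind for `D ∈ V` and of the other kind for `D ∈ 𝒟 \ V` tends to the proportion of
  the vectors `u` over the field with two elements, indexed by the prime factors of the elements of `𝒟`,
  such that `mat D + diag u` is nonsingular exactly for the `D ∈ V`; if the `D ∈ 𝒟` are pairwise coprime
  this is `∏_{D ∈ V} c₀(D) ∏_{D ∈ 𝒟 \ V} (1 - c₀(D))`: the events are independent;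
* among the primes `p = 1` modulo `4` which split in `ℚ(√-7)` the same holds with the matrices bordered by
  `u` and a corner, one new variable being the quartic symbol of `-7` modulo `p`; for one `D` the
  proportion is `c₁(D)`;
* let `n` be the number of the prime factors of `D` which split in `ℚ(√-7)`; then
  `2 ^ (- n) ≤ c₀(D)`, and `c₀(D) ≤ 1 - 2 ^ (- n)` if `n ≥ 1` (`c₀(D) = 1` if `n = 0`), and
  `2 ^ (- n - 1) ≤ c₁(D) ≤ 1 - 2 ^ (- n - 1)`. So for EVERY `D` of the class the 2-part of the formula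
  holds with a unit for a positive proportion of the prime twists of `E_D`, inert and split, and it is of
  the other kind for a positive proportion (inert ones if `n ≥ 1`, and split ones always).

Proof. An inert prime adds its own symbols to the diagonal of the matrix of `D`, a split prime borders the
matrix, by quadratic reciprocity; the joint law of the quadratic symbols and of the quartic symbol of
`-7` follows from the theorem of Chebotarev and from the independence of the roots; the number of the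
nonsingular perturbations is odd.
-/

set_option autoImplicit false
set_option linter.style.haveILetI false

open scoped Classical

namespace Pool.Agent.Results.MP_92892c_nt.PrimeTwistsOfEveryMember

open Filter Matrix WeierstrassCurve Topology
open Pool.Agent.TH841.NF.D (Sha)
open Pool.Agent.Results.MP_4a9ea6_nt.TwoPartTwistsX49 (twist E MinimalAt nonsing c Tam cubic Omega
  torsOrder anOrder TwoPart)

/-- the class: `D` is squarefree and all its prime factors are `1` modulo `4` -/
def Family (D : ℕ) : Prop := Squarefree D ∧ ∀ p ∈ D.primeFactors, p % 4 = 1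

/-- The other kind: `E_D(ℚ)` is infinite or `Ш(E_D/ℚ)` has an element of order two; `L(E_D, s)` has the
entire continuation `Λ`, and the analytic order of `Ш` is integral and not a unit at two:
`v (anOrder D (Λ 1)) < 1` for all valuations `v` of `ℂ` above two. -/
def Other (D : ℕ) : Prop :=
  ¬ (Finite (E D).toAffine.Point ∧ ∀ x : Sha (E D), 2 • x = 0 → x = 0) ∧
  ∃ Λ : ℂ → ℂ, Differentiable ℂ Λ ∧ (∀ s : ℂ, 2 < s.re → Λ s = (E D).LSeries s) ∧
    ∀ (Γ : Type) [LinearOrderedCommGroupWithZero Γ] (v : Valuation ℂ Γ), v 2 < 1 →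
      v (anOrder D (Λ 1)) < 1

/-- the prime factors of `D` which split in `ℚ(√-7)` -/
noncomputable def split (D : ℕ) : Finset ℕ := D.primeFactors.filter fun p => IsSquare (-7 : ZMod p)

/-- `1` if `m` is not a square modulo `p`, and `0` if it is -/
noncomputable def nonsq (p m : ℕ) : ZMod 2 := if IsSquare (m : ZMod p) then 0 else 1

/-- `1` if `-7` is not a fourth power modulo `p`, and `0` if it is -/
noncomputable def nonfourth (p : ℕ) : ZMod 2 := if ∃ y : ZMod p, y ^ 4 = -7 then 0 else 1

/-- the matrix of `D` over the field with two elements, indexed by the prime factors of `D` which split in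
`ℚ(√-7)`: the entry at `(i, j)` is `nonsq i j` for `i ≠ j`, and the entry at `(i, i)` is the sum of
`nonfourth i` and of the `nonsq i l` for all the prime factors `l ≠ i` of `D` -/
noncomputable def mat (D : ℕ) : Matrix (split D) (split D) (ZMod 2) := Matrix.of fun i j =>
  if i = j then nonfourth i + ∑ l ∈ D.primeFactors.erase i, nonsq i l else nonsq i j

/-- the matrix `mat D` with `v` added to the diagonal, bordered by `v` and the corner `d` -/
noncomputable def bordered (D : ℕ) (v : split D → ZMod 2) (d : ZMod 2) :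
    Matrix (split D ⊕ Unit) (split D ⊕ Unit) (ZMod 2) :=
  Matrix.fromBlocks (mat D + diagonal v) (Matrix.of fun i _ => v i) (Matrix.of fun _ i => v i)
    (Matrix.of fun _ _ => d)

/-- the proportion of the vectors `v` such that `mat D + diagonal v` is nonsingular -/
noncomputable def c₀ (D : ℕ) : ℝ :=
  (Nat.card {v : split D → ZMod 2 // (mat D + diagonal v).det ≠ 0} : ℝ) / 2 ^ (split D).card

/-- the proportion of the pairs `(v, d)` such that the bordered matrix is nonsingular -/
noncomputable def c₁ (D : ℕ) : ℝ :=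
  (Nat.card {x : (split D → ZMod 2) × ZMod 2 // (bordered D x.1 x.2).det ≠ 0} : ℝ) /
    2 ^ ((split D).card + 1)

/-- the prime factors of the elements of `𝒟` -/
def primes (𝒟 : Finset ℕ) : Finset ℕ := 𝒟.biUnion Nat.primeFactors

/-- extension by zero -/
noncomputable def ext {R : Finset ℕ} (u : R → ZMod 2) (r : ℕ) : ZMod 2 :=
  if h : r ∈ R then u ⟨r, h⟩ else 0

/-- the proportion of the vectors `u` such that `mat D + diag u` is nonsingular exactly for `D ∈ V` -/
noncomputable def inertConst (𝒟 V : Finset ℕ) : ℝ :=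
  (Nat.card {u : primes 𝒟 → ZMod 2 // ∀ D ∈ 𝒟,
    ((mat D + diagonal fun i : split D => ext u i).det ≠ 0 ↔ D ∈ V)} : ℝ) / 2 ^ (primes 𝒟).card

/-- the proportion of the pairs of a vector `u` and of a scalar `t` such that the matrix of `D` with `u`
added to the diagonal, bordered by `u` and the corner `t + ∑_{l | D} u_l`, is nonsingular exactly for
`D ∈ V` -/
noncomputable def splitConst (𝒟 V : Finset ℕ) : ℝ :=
  (Nat.card {x : (primes 𝒟 → ZMod 2) × ZMod 2 // ∀ D ∈ 𝒟,
    ((bordered D (fun i : split D => ext x.1 i) (x.2 + ∑ l ∈ D.primeFactors, ext x.1 l)).det ≠ 0 ↔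
      D ∈ V)} : ℝ) / 2 ^ ((primes 𝒟).card + 1)

/-- the number of the primes `p ≤ X`, `p = 1` modulo `4`, inert in `ℚ(√-7)`, with the property `P` -/
noncomputable def countInert (P : ℕ → Prop) (X : ℕ) : ℕ :=
  ((Finset.Icc 1 X).filter fun p => p.Prime ∧ p % 4 = 1 ∧ ¬ IsSquare (-7 : ZMod p) ∧ P p).card

/-- the number of the primes `p ≤ X`, `p = 1` modulo `4`, split in `ℚ(√-7)`, with the property `P` -/
noncomputable def countSplit (P : ℕ → Prop) (X : ℕ) : ℕ :=
  ((Finset.Icc 1 X).filter fun p => p.Prime ∧ p % 4 = 1 ∧ IsSquare (-7 : ZMod p) ∧ P p).card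

/-- among the members `D` of `𝒟`, the 2-part of the formula holds with a unit for `D p` if `D ∈ V`, and
`D p` is of the other kind if `D ∉ V` -/
def Pattern (𝒟 V : Finset ℕ) (p : ℕ) : Prop :=
  ∀ D ∈ 𝒟, (D ∈ V → TwoPart (D * p)) ∧ (D ∉ V → Other (D * p))

section proof

open Pool.Agent.Results.MP_4a9ea6_nt.TwoPartTwistsX49 (core two_iff)
open Pool.Agent.U687.JT

theorem other_iff {D : ℕ} (h : Family D) : Other D ↔ ¬ (mat D).det ≠ 0 := by
  obtain ⟨-, -, -, h4, -, -, Λ, h7, h8, -, h10, -⟩ := core h
  have h4' : (Finite (E D).toAffine.Point ∧ ∀ x : Sha (E D), 2 • x = 0 → x = 0) ↔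
      (mat D).det ≠ 0 := by
    have h5 : (Finite (E D).toAffine.Point ∧ ∀ x : Sha (E D), 2 • x = 0 → x = 0) ↔
        (Finite (E D).toAffine.Point ∧ ∀ x : Sha (E D), x + x = 0 → x = 0) := by
      simp only [two_nsmul]
    exact h5.trans h4
  constructor
  · rintro ⟨h1, -⟩ h2
    exact h1 (h4'.2 h2)
  · intro h1
    refine ⟨fun h2 => h1 (h4'.1 h2), Λ, h7, h8, fun Γ _ v hv => ?_⟩
    obtain ⟨h11, h12⟩ := h10 Γ v hv
    exact lt_of_le_of_ne h11 fun h13 => h1 (h12.1 h13)

theorem pattern_iff {𝒟 V : Finset ℕ} {p : ℕ} (h : ∀ D ∈ 𝒟, Family (D * p)) :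
    Pattern 𝒟 V p ↔ ∀ D ∈ 𝒟, ((mat (D * p)).det ≠ 0 ↔ D ∈ V) := by
  refine forall₂_congr fun D hD => ?_
  have h1 : TwoPart (D * p) ↔ (mat (D * p)).det ≠ 0 := two_iff (h D hD)
  rw [h1, other_iff (h D hD)]
  constructor
  · rintro ⟨h2, h3⟩
    exact ⟨fun h4 => by_contra fun h5 => h3 h5 h4, h2⟩
  · intro h2
    exact ⟨h2.2, fun h3 h4 => h3 (h2.1 h4)⟩

end proof

open Pool.Agent.U687.JT in
/-- **The 2-part of the formula for the prime twists of every member of the class.** -/
theorem result :
    (∀ D : ℕ, Family D → (TwoPart D ∨ Other D) ∧ ¬ (TwoPart D ∧ Other D)) ∧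
    (∀ 𝒟 V : Finset ℕ, (∀ D ∈ 𝒟, Family D) → V ⊆ 𝒟 →
      Tendsto (fun X : ℕ => (countInert (Pattern 𝒟 V) X : ℝ) / (countInert (fun _ => True) X : ℝ))
        atTop (𝓝 (inertConst 𝒟 V)) ∧
      Tendsto (fun X : ℕ => (countSplit (Pattern 𝒟 V) X : ℝ) / (countSplit (fun _ => True) X : ℝ))
        atTop (𝓝 (splitConst 𝒟 V)) ∧
      ((∀ D ∈ 𝒟, ∀ D' ∈ 𝒟, D ≠ D' → Nat.Coprime D D') →
        inertConst 𝒟 V = (∏ D ∈ V, c₀ D) * ∏ D ∈ 𝒟 \ V, (1 - c₀ D))) ∧
    (∀ D : ℕ, splitConst {D} {D} = c₁ D) ∧
    (∀ D : ℕ, (1 / 2 : ℝ) ^ (split D).card ≤ c₀ D ∧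
      ((split D).Nonempty → c₀ D ≤ 1 - (1 / 2 : ℝ) ^ (split D).card) ∧
      (1 / 2 : ℝ) ^ ((split D).card + 1) ≤ c₁ D ∧ c₁ D ≤ 1 - (1 / 2 : ℝ) ^ ((split D).card + 1)) := by
  refine ⟨fun D hD => ?_, fun 𝒟 V h𝒟 hV => ?_, fun D => ?_,
    fun D => ⟨c0_ge D, fun h => c0_le h, c1_ge D, c1_le D⟩⟩
  · have h1 : TwoPart D ↔ (mat D).det ≠ 0 :=
      Pool.Agent.Results.MP_4a9ea6_nt.TwoPartTwistsX49.two_iff hD
    rw [h1, other_iff hD]
    exact ⟨em _, fun h => h.2 h.1⟩
  · have hRp : ∀ r ∈ primes 𝒟, r.Prime ∧ r % 4 = 1 := by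
      intro r hr
      obtain ⟨D, hD, hr⟩ := Finset.mem_biUnion.1 hr
      exact ⟨Nat.prime_of_mem_primeFactors hr, (h𝒟 D hD).2 r hr⟩
    have hsub : ∀ D ∈ 𝒟, D.primeFactors ⊆ primes 𝒟 := fun D hD r hr =>
      Finset.mem_biUnion.2 ⟨D, hD, hr⟩
    have hprod : 0 < ∏ D ∈ 𝒟, D :=
      Finset.prod_pos fun D hD => Nat.pos_of_ne_zero (h𝒟 D hD).1.ne_zero
    have hndv : ∀ p : ℕ, ¬ p ∣ bad (primes 𝒟) (∏ D ∈ 𝒟, D) → ∀ D ∈ 𝒟, ¬ p ∣ D :=
      fun p hp D hD hd => (bad_spec hp).2.2.2 (hd.trans (Finset.dvd_prod_of_mem (fun D => D) hD))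
    have hsym : ∀ (p : ℕ) [Fact p.Prime], p % 4 = 1 → ∀ D ∈ 𝒟,
        (fun i : split D => ext (fun r : primes 𝒟 => nr2 p r) i) =
          fun i : split D => nonsq i p := by
      intro p hp h4 D hD
      funext i
      have hi := mem_split.1 i.2
      have e1 : ext (fun r : primes 𝒟 => nr2 p r) i = nr2 p i :=
        ext2_nr2 p (hsub D hD hi.1)
      rw [e1]
      exact nonsq_symm hp.out (Nat.prime_of_mem_primeFactors hi.1) h4 ((h𝒟 D hD).2 _ hi.1)
    refine ⟨?_, ?_, fun hco => ratio_pattern hco hV hsub⟩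
    · have h := quad_inert (primes 𝒟) hRp (∏ D ∈ 𝒟, D) hprod
        (fun u => ∀ D ∈ 𝒟, ((mat D + diagonal fun i : split D => ext u i).det ≠ 0 ↔ D ∈ V))
        (Pattern 𝒟 V) (by
          intro p hp hpN h4 h7
          have hpD := hndv p hpN
          rw [pattern_iff fun D hD => adm_mul (h𝒟 D hD) hp.out h4 (hpD D hD)]
          refine forall₂_congr fun D hD => ?_
          have e1 : (mat (D * p)).det = (mat D + diagonal fun i : split D => nonsq i p).det :=
            det_inert (h𝒟 D hD) hp.out (hpD D hD) h7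
          rw [hsym p h4 D hD, e1])
      refine h.congr fun X => ?_
      unfold countInert
      simp only [and_true]
    · have h := quad_split (primes 𝒟) hRp (∏ D ∈ 𝒟, D) hprod
        (fun x => ∀ D ∈ 𝒟, ((bordered D (fun i : split D => ext x.1 i)
          (x.2 + ∑ l ∈ D.primeFactors, ext x.1 l)).det ≠ 0 ↔ D ∈ V))
        (Pattern 𝒟 V) (by
          intro p hp hpN h4 h7
          have hpD := hndv p hpN
          rw [pattern_iff fun D hD => adm_mul (h𝒟 D hD) hp.out h4 (hpD D hD)]
          refine forall₂_congr fun D hD => ?_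
          have e1 : (mat (D * p)).det = (bordered D (fun i : split D => nonsq i p)
              (nonfourth p + ∑ l ∈ D.primeFactors, nonsq p l)).det :=
            det_split (h𝒟 D hD) hp.out h4 (hpD D hD) h7
          have e2 : ∑ l ∈ D.primeFactors, ext (fun r : primes 𝒟 => nr2 p r) l =
              ∑ l ∈ D.primeFactors, nonsq p l :=
            Finset.sum_congr rfl fun l hl => ext2_nr2 p (hsub D hD hl)
          rw [e1]
          show ((bordered D (fun i : split D => ext (fun r : primes 𝒟 => nr2 p r) i)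
            (nonfourth p + ∑ l ∈ D.primeFactors, ext (fun r : primes 𝒟 => nr2 p r) l)).det ≠ 0 ↔
              D ∈ V) ↔ _
          rw [hsym p h4 D hD, e2])
      refine h.congr fun X => ?_
      unfold countSplit
      simp only [and_true]
  · have h := ratio_split (D := D) (R := primes {D}) (by
      intro r hr
      exact Finset.mem_biUnion.2 ⟨D, Finset.mem_singleton_self D, hr⟩)
    refine Eq.trans ?_ h
    unfold splitConst
    congr 2
    refine Nat.card_congr (Equiv.subtypeEquivRight fun x => ?_)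
    constructor
    · intro h1
      exact (h1 D (Finset.mem_singleton_self D)).2 (Finset.mem_singleton_self D)
    · intro h1 D' hD'
      have := Finset.mem_singleton.1 hD'
      subst this
      exact ⟨fun _ => Finset.mem_singleton_self _, fun _ => h1⟩

end Pool.Agent.Results.MP_92892c_nt.PrimeTwistsOfEveryMember
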