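import Pool.Agent.U621.XS.Fin2
import Pool.Agent.U637.XS.LS

/-!
# The formula modulo two for the twists of the isogeny class of `X_0(20)` by `p m` with one split prime `p`

`E_D : y² = x³ - 11 D x² - D² x` is the quadratic twist by `D` of a curve `E_1` of conductor `20` without complex
multiplication. The 2-division fields of `E_1` and of the 2-isogenous curve are `ℚ(√5)` and `ℚ(i)`. Let
`D = p m`, where `m ≡ 1 mod 4` (of either sign, `m = 1` allowed) is a squarefree product of any number of primes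
`≡ 3, 7 mod 20` (inert in both fields), and `p ≡ 1, 9 mod 20` is one prime which splits in both fields; so
`E_D` has full 2-torsion over `ℚ_p`, and neither the 2-descent nor the congruence of the modular symbols decides
by themselves: everything depends on the curve `E_m` modulo `p`.

* If `8 ∤ #E_m(𝔽_p)`, then `L(E_D, 1) ≠ 0`, `E_D(ℚ)` is finite of order `2` times an odd number, the 2-primary
  part of `Ш(E_D/ℚ)` is zero and `L(E_D, 1) #E_D(ℚ)² / (Ω ∏ c_p)` is a quotient of two odd integers: the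
  2-part of the formula of Birch and Swinnerton-Dyer holds.
* If `8 ∣ #E_m(𝔽_p)`, then `4 L(E_D, 1) / (Ω ∏ c_p)` is an even integer divided by an odd one, and `E_D(ℚ)` is
  infinite or `Ш(E_D/ℚ)[2] ≠ 0`.
* `8 ∣ #E_m(𝔽_p)` if and only if `m ε` is a square modulo `p` for the golden ratio `ε² = ε + 1` modulo `p`. Both
  cases occur for infinitely many `m = -q`, `q` prime, for each `p`.

So the analytic side is odd exactly when the algebraic side is trivial, for all twists with one split prime.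

Components. Analytic side: the congruence of the sums of modular symbols with one split prime
(`Pool.Agent.Y695.mu_B`, starting library, not used there) needs the comparison of the values of the modular
symbol at the two fixed points of an involution of `(ℤ/pm)^×`; this is `U621/XS/FP.lean`
(`p = u² + 5 v²`, a matrix of `Γ_0(20)` conjugates one Fricke involution into the other). Algebraic side:
descent with the root conditions at `p` (`U621/XS/Main.lean`, `U669/XS/DL.lean`), the Tamagawa number `4` at `p`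
(`U894/XS/TA.lean`), and for the second kind the locally soluble covering `N² = p M⁴ + 22 p m M² e² + 125 p m² e⁴`
with the library of helper115, helper171, helper796 (`U115/GE`, `U796/GE`).

Authors: helper621, helper894 (Tamagawa numbers), helper669 (local analysis), helper637 (local solubility).
-/

set_option autoImplicit false

open scoped Classical

namespace Pool.Agent.Results.MP_92892c_nt.SplitPrimeTwistsX20

open Pool.Agent.Y695 (EQ Om tamProd IsLFun)
open Pool.Agent.TH841.NF.D (Sha)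

/-- the curve `y² = x³ - 11 D x² - D² x`, the quadratic twist by `D` of the curve `y² = x³ - 11 x² - x` of
conductor `20` -/
def E (D : ℤ) : WeierstrassCurve ℤ := ⟨0, -11 * D, 0, -D ^ 2, 0⟩

/-- the number of points of `E_m` over `ℤ/p`, with the point at infinity -/
noncomputable def pts (m : ℤ) (p : ℕ) : ℕ :=
  Nat.card {P : ZMod p × ZMod p // P.2 ^ 2 = P.1 ^ 3 - 11 * (m : ZMod p) * P.1 ^ 2 - (m : ZMod p) ^ 2 * P.1} + 1

/-- `p ≡ 1, 9 mod 20` is a prime and `m ≡ 1 mod 4`, positive or negative, is squarefree with all its prime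
factors `≡ 3, 7 mod 20` -/
def OneSplit (p : ℕ) (m : ℤ) : Prop :=
  p.Prime ∧ (p % 20 = 1 ∨ p % 20 = 9) ∧ Squarefree m ∧ m % 4 = 1 ∧
    ∀ q : ℕ, q.Prime → (q : ℤ) ∣ m → q % 20 = 3 ∨ q % 20 = 7

/-- the first kind: `Λ(1) ≠ 0`, `W(ℚ)` is finite of order `2 k`, `k` odd, `Ш(W/ℚ)[2^∞] = 0` and
`b #W(ℚ)² Λ(1) = a Ω ∏ c_p` with odd integers `a`, `b` -/
def First (W : WeierstrassCurve ℤ) (Λ : ℂ → ℂ) : Prop :=
  Λ 1 ≠ 0 ∧ Finite (EQ W).toAffine.Point ∧
  (∃ k : ℕ, Odd k ∧ Nat.card (EQ W).toAffine.Point = 2 * k) ∧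
  (∀ (n : ℕ) (x : Sha (EQ W)), 2 ^ n • x = 0 → x = 0) ∧
  ∃ a b : ℤ, Odd a ∧ Odd b ∧
    b * ((Nat.card (EQ W).toAffine.Point : ℂ) ^ 2 * Λ 1) = a * (Om W * tamProd W)

/-- the second kind: `4 b Λ(1) = a Ω ∏ c_p` with `a` even and `b` odd, and `W(ℚ)` is infinite or
`Ш(W/ℚ)[2] ≠ 0` -/
def Second (W : WeierstrassCurve ℤ) (Λ : ℂ → ℂ) : Prop :=
  (∃ a b : ℤ, Even a ∧ Odd b ∧ b * (4 * Λ 1) = a * (Om W * tamProd W)) ∧
  (Infinite (EQ W).toAffine.Point ∨ ∃ x : Sha (EQ W), x ≠ 0 ∧ 2 • x = 0)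

theorem pts_eq (m : ℤ) (p : ℕ) : pts m p = W97.MT.affCount (Y695.ED m) p + 1 := by
  unfold pts W97.MT.affCount
  congr 1
  refine Nat.card_congr (Equiv.subtypeEquivRight fun P => ?_)
  rw [WeierstrassCurve.Affine.equation_iff]
  simp only [WeierstrassCurve.map, Y695.ED, eq_intCast]
  push_cast
  constructor
  · intro h
    linear_combination h
  · intro h
    linear_combination h

theorem conv {p : ℕ} {m : ℤ} (h : OneSplit p m) : U621.XS.OneSplit p m :=
  ⟨h.1, h.2.1, h.2.2.1, h.2.2.2.1, h.2.2.2.2⟩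

/-- **The formula of Birch and Swinnerton-Dyer modulo two for the twists `E_{pm}` with one split prime.** -/
theorem result :
    (∀ (p : ℕ) (m : ℤ), OneSplit p m →
      W97.MT.IsGloballyMinimal (E (p * m)) ∧
      (E (p * m)).c₄ ^ 3 * 5 ^ 3 = 2 ^ 14 * 31 ^ 3 * (E (p * m)).Δ ∧
      (∃ Λ : ℂ → ℂ, IsLFun (E (p * m)) Λ ∧
        (¬ 8 ∣ pts m p → First (E (p * m)) Λ) ∧ (8 ∣ pts m p → Second (E (p * m)) Λ)) ∧
      ∀ ε : ZMod p, ε ^ 2 = ε + 1 → (8 ∣ pts m p ↔ IsSquare ((m : ZMod p) * ε))) ∧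
    ∀ p : ℕ, p.Prime → (p % 20 = 1 ∨ p % 20 = 9) →
      {q : ℕ | q.Prime ∧ OneSplit p (-(q : ℤ)) ∧ ¬ 8 ∣ pts (-(q : ℤ)) p}.Infinite ∧
      {q : ℕ | q.Prime ∧ OneSplit p (-(q : ℤ)) ∧ 8 ∣ pts (-(q : ℤ)) p}.Infinite := by
  refine ⟨fun p m h => ?_, fun p hp hmod => ?_⟩
  · have h' := conv h
    have := Fact.mk h'.prime
    refine ⟨Y695.min_ED h'.dsq, ?_, ?_, ?_⟩
    · have h4 : (E (p * m)).Δ = 2000 * (p * m) ^ 6 := Y695.disc_ED (p * m)
      rw [h4]
      simp only [WeierstrassCurve.c₄, WeierstrassCurve.b₂, WeierstrassCurve.b₄, E]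
      ring
    · rw [pts_eq]
      obtain ⟨Λ, hΛ, a, b, hb, hab, hodd, hne⟩ := h'.formula
      replace hab : 4 * b * Λ 1 = a * (Om (E (p * m)) * tamProd (E (p * m))) := hab
      refine ⟨Λ, hΛ, fun h8 => ?_, fun h8 => ?_⟩
      · obtain ⟨hfin, ⟨k, hk, hcard⟩, hsha⟩ := h'.first h8
        have ha := hodd.2 h8
        have hf : (Nat.card (EQ (E (p * m))).toAffine.Point : ℂ) = 2 * k := by
          have := congrArg (Nat.cast : ℕ → ℂ) hcard
          push_cast at this
          exact this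
        refine ⟨hne h8, hfin, ⟨k, hk, hcard⟩, hsha, a * k ^ 2, b, ha.mul (by exact_mod_cast hk.pow), hb, ?_⟩
        rw [hf]
        push_cast
        linear_combination (k : ℂ) ^ 2 * hab
      · refine ⟨⟨a, b, Int.not_odd_iff_even.1 fun ha => hodd.1 ha h8, hb, ?_⟩, h'.second U637.XS.t_LS h8⟩
        linear_combination hab
    · intro ε hε
      rw [pts_eq]
      refine U621.XS.crit ?_ ?_ ?_ hε
      · have := h.2.1
        omega
      · exact fun h1 => h'.not_dvd ((ZMod.intCast_zmod_eq_zero_iff_dvd _ _).1 h1)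
      · have := h.2.1
        omega
  · have := Fact.mk hp
    obtain ⟨h1, h2⟩ := U621.XS.infinite hmod
    constructor
    · refine h1.mono ?_
      rintro q ⟨hq, ho, h8⟩
      refine ⟨hq, ⟨ho.prime, ho.mod, ho.sqf, ho.four, ho.inert⟩, ?_⟩
      rwa [pts_eq]
    · refine h2.mono ?_
      rintro q ⟨hq, ho, h8⟩
      refine ⟨hq, ⟨ho.prime, ho.mod, ho.sqf, ho.four, ho.inert⟩, ?_⟩
      rwa [pts_eq]

end Pool.Agent.Results.MP_92892c_nt.SplitPrimeTwistsX20
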